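import Mathlib

/-!
Finite loopless multigraphs given by an incidence relation, cycle covers, and the expansion of
vertices into triangles.
-/

namespace Pool.Agent.Scc961

/-- A finite loopless multigraph: a finite set `V` of vertices, a finite set `E` of edges and an
incidence relation such that every edge is incident with exactly two vertices. Parallel edges are
allowed. -/
structure MGraph where
  V : Type
  E : Type
  finV : Finite V
  finE : Finite E
  Inc : E → V → Prop
  two_ends : ∀ e, ∃ a b, a ≠ b ∧ ∀ v, Inc e v ↔ (v = a ∨ v = b)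

namespace MGraph

/-- Every vertex has degree three. -/
def IsCubic (G : MGraph) : Prop := ∀ v : G.V, {e : G.E | G.Inc e v}.ncard = 3

/-- `G` has at least two vertices and stays connected after the removal of any set of at most two
edges. -/
def ThreeEdgeConnected (G : MGraph) : Prop :=
  Nontrivial G.V ∧ ∀ S : Set G.E, S.ncard ≤ 2 → ∀ u v : G.V,
    Relation.ReflTransGen (fun x y => ∃ e, e ∉ S ∧ G.Inc e x ∧ G.Inc e y) u v

/-- `C` is the edge set of a cycle, that is, of a connected 2-regular subgraph: `C` is nonempty,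
every vertex is incident with zero or two edges of `C`, and any two edges of `C` are joined by a
sequence of edges of `C` in which consecutive edges share a vertex. -/
def IsCycle (G : MGraph) (C : Set G.E) : Prop :=
  C.Nonempty ∧
  (∀ v : G.V, {e | e ∈ C ∧ G.Inc e v}.ncard = 0 ∨ {e | e ∈ C ∧ G.Inc e v}.ncard = 2) ∧
  ∀ e ∈ C, ∀ f ∈ C,
    Relation.ReflTransGen (fun a b => a ∈ C ∧ b ∈ C ∧ ∃ v, G.Inc a v ∧ G.Inc b v) e f

/-- A cycle cover: a finite family (list) of cycles whose union contains every edge. -/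
def IsCycleCover (G : MGraph) (L : List (Set G.E)) : Prop :=
  (∀ C ∈ L, G.IsCycle C) ∧ ∀ e : G.E, ∃ C ∈ L, e ∈ C

/-- The length of a family of cycles: the sum of the numbers of edges of its members. -/
noncomputable def coverLength (G : MGraph) (L : List (Set G.E)) : ℕ :=
  (L.map Set.ncard).sum

/-- The length of a shortest cycle cover. -/
noncomputable def scc (G : MGraph) : ℕ :=
  sInf {n : ℕ | ∃ L : List (Set G.E), G.IsCycleCover L ∧ G.coverLength L = n}

/-- A perfect matching: a set of edges that meets every vertex exactly once. -/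
def IsPerfectMatching (G : MGraph) (M : Set G.E) : Prop :=
  ∀ v : G.V, ∃! e, e ∈ M ∧ G.Inc e v

/-- The edges are covered by four (not necessarily distinct) perfect matchings. -/
def FourPMCoverable (G : MGraph) : Prop :=
  ∃ M : Fin 4 → Set G.E, (∀ i, G.IsPerfectMatching (M i)) ∧ ∀ e, ∃ i, e ∈ M i

/-- The vertices of the expanded graph: the vertices outside `U`, and, for each vertex `u` of `U`,
one new vertex for each edge incident with `u`. -/
abbrev ExpV (G : MGraph) (U : Set G.V) : Type :=
  {v : G.V // v ∉ U} ⊕ {p : G.V × G.E // p.1 ∈ U ∧ G.Inc p.2 p.1}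

/-- The edges of the expanded graph: the old edges, and, for each vertex `u` of `U`, one new edge
for each unordered pair of distinct edges incident with `u`. -/
abbrev ExpE (G : MGraph) (U : Set G.V) : Type :=
  G.E ⊕ {q : G.V × Sym2 G.E // q.1 ∈ U ∧ ¬ q.2.IsDiag ∧ ∀ e ∈ q.2, G.Inc e q.1}

/-- Incidence in the expanded graph: an old edge `e` keeps its ends outside `U`, and its end `u`
in `U` is replaced by the new vertex `(u, e)`; the new edge of `u` given by the pair `{e, f}`
joins `(u, e)` and `(u, f)`. -/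
def ExpInc (G : MGraph) (U : Set G.V) : G.ExpE U → G.ExpV U → Prop
  | Sum.inl e, Sum.inl v => G.Inc e v.1
  | Sum.inl e, Sum.inr p => p.1.2 = e
  | Sum.inr _, Sum.inl _ => False
  | Sum.inr q, Sum.inr p => q.1.1 = p.1.1 ∧ p.1.2 ∈ q.1.2

theorem exp_two_ends (G : MGraph) (U : Set G.V) (e : G.ExpE U) :
    ∃ a b, a ≠ b ∧ ∀ v, G.ExpInc U e v ↔ (v = a ∨ v = b) := by
  classical
  rcases e with e | ⟨⟨u, s⟩, hu, hs, hinc⟩
  · have key : ∀ x, G.Inc e x → ∃ p : G.ExpV U, ∀ w : G.ExpV U,
        w = p ↔ (∃ h : x ∉ U, w = Sum.inl ⟨x, h⟩) ∨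
          (∃ h : x ∈ U, ∃ h' : G.Inc e x, w = Sum.inr ⟨(x, e), h, h'⟩) := by
      intro x hx
      by_cases hxU : x ∈ U
      · exact ⟨Sum.inr ⟨(x, e), hxU, hx⟩, fun w => ⟨fun h => Or.inr ⟨hxU, hx, h⟩, by
          rintro (⟨h, _⟩ | ⟨_, _, h⟩)
          · exact absurd hxU h
          · exact h⟩⟩
      · exact ⟨Sum.inl ⟨x, hxU⟩, fun w => ⟨fun h => Or.inl ⟨hxU, h⟩, by
          rintro (⟨_, h⟩ | ⟨h, _, _⟩)
          · exact h
          · exact absurd h hxU⟩⟩
    obtain ⟨a, b, hab, h⟩ := G.two_ends e
    obtain ⟨p, hp⟩ := key a ((h a).2 (Or.inl rfl))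
    obtain ⟨q, hq⟩ := key b ((h b).2 (Or.inr rfl))
    refine ⟨p, q, ?_, ?_⟩
    · intro hpq
      have h1 := (hq p).1 hpq
      have h2 := (hp p).1 rfl
      rcases h1 with ⟨_, h1⟩ | ⟨_, _, h1⟩ <;> rcases h2 with ⟨_, h2⟩ | ⟨_, _, h2⟩ <;>
        rw [h1] at h2 <;> simp at h2 <;> exact hab h2.symm
    · intro v
      rw [hp v, hq v]
      rcases v with ⟨v, hv⟩ | ⟨⟨v, g⟩, hv, hg⟩
      · simp only [ExpInc, h v]
        constructor
        · rintro (rfl | rfl)
          · exact Or.inl (Or.inl ⟨hv, rfl⟩)
          · exact Or.inr (Or.inl ⟨hv, rfl⟩)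
        · rintro ((⟨_, h1⟩ | ⟨_, _, h1⟩) | (⟨_, h1⟩ | ⟨_, _, h1⟩)) <;> simp at h1 <;> simp [h1]
      · simp only [ExpInc]
        constructor
        · intro hge
          subst hge
          have hv' : v ∈ U := hv
          have hg' : G.Inc g v := hg
          rcases (h v).1 hg' with rfl | rfl
          · exact Or.inl (Or.inr ⟨hv', hg', rfl⟩)
          · exact Or.inr (Or.inr ⟨hv', hg', rfl⟩)
        · rintro ((⟨_, h1⟩ | ⟨_, _, h1⟩) | (⟨_, h1⟩ | ⟨_, _, h1⟩)) <;> simp at h1 <;> exact h1.2
  · induction s with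
    | _ x y =>
      have hxy : x ≠ y := by simpa using hs
      have hx : G.Inc x u := hinc x (by simp)
      have hy : G.Inc y u := hinc y (by simp)
      have hu' : u ∈ U := hu
      refine ⟨Sum.inr ⟨(u, x), hu', hx⟩, Sum.inr ⟨(u, y), hu', hy⟩, ?_, ?_⟩
      · intro h1
        simp at h1
        exact hxy h1
      · intro v
        rcases v with ⟨v, hv⟩ | ⟨⟨v, g⟩, hv, hg⟩
        · simp [ExpInc]
        · simp only [ExpInc, Sym2.mem_iff, Sum.inr.injEq, Subtype.mk.injEq, Prod.mk.injEq]
          constructor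
          · rintro ⟨h1, h2 | h2⟩
            · exact Or.inl ⟨h1.symm, h2⟩
            · exact Or.inr ⟨h1.symm, h2⟩
          · rintro (h1 | h1)
            · exact ⟨h1.1.symm, Or.inl h1.2⟩
            · exact ⟨h1.1.symm, Or.inr h1.2⟩

/-- The graph obtained from `G` by expanding every vertex of `U` into a triangle (for cubic `G`;
in general into a complete graph on the edges incident with it). -/
def expand (G : MGraph) (U : Set G.V) : MGraph where
  V := G.ExpV U
  E := G.ExpE U
  finV := by
    have := G.finV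
    have := G.finE
    unfold ExpV
    infer_instance
  finE := by
    have := G.finV
    have := G.finE
    unfold ExpE
    infer_instance
  Inc := G.ExpInc U
  two_ends := G.exp_two_ends U

/-- The least number of vertices whose expansion into triangles makes the graph coverable by four
perfect matchings; it is infinite if there is no such set of vertices. -/
noncomputable def T (G : MGraph) : ℕ∞ :=
  sInf {n : ℕ∞ | ∃ U : Set G.V, (G.expand U).FourPMCoverable ∧ n = (U.ncard : ℕ∞)}

end MGraph

end Pool.Agent.Scc961
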