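import Mathlib

/-!
Finite facts about the Petersen graph, checked by evaluation. The edges are numbered 0..14: the
outer edges are i = (i, i+1), the inner edges are 5+i = (5+i, 5+i+2) and the spokes are
10+i = (i, 5+i), all modulo 5.
-/

namespace Pool.Agent.Scc961

/-- Local condition at a vertex with edges `a`, `b`, `c`: exactly two of the `o`-bits are on, an
even number of the `d`-bits are on, and the two `o`-edges are not both `d`-edges. -/
def vok (oa da ob db oc dc : Bool) : Bool :=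
  ((oa && ob && !oc) || (oa && !ob && oc) || (!oa && ob && oc)) &&
  (!(da ^^ (db ^^ dc))) &&
  !(oa && da && ob && db) && !(oa && da && oc && dc) && !(ob && db && oc && dc)

set_option synthInstance.maxSize 100000 in
theorem fin_alt :
    ∀ o0 d0 o4 d4 o10 d10 : Bool, vok o0 d0 o4 d4 o10 d10 = true →
    ∀ o1 d1 o11 d11 : Bool, vok o1 d1 o0 d0 o11 d11 = true →
    ∀ o3 d3 o14 d14 : Bool, vok o4 d4 o3 d3 o14 d14 = true →
    ∀ o2 d2 o12 d12 : Bool, vok o2 d2 o1 d1 o12 d12 = true →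
    ∀ o13 d13 : Bool, vok o3 d3 o2 d2 o13 d13 = true →
    ∀ o5 d5 o8 d8 : Bool, vok o5 d5 o8 d8 o10 d10 = true →
    ∀ o7 d7 : Bool, vok o7 d7 o5 d5 o12 d12 = true →
    ∀ o6 d6 : Bool, vok o8 d8 o6 d6 o13 d13 = true →
    ∀ o9 d9 : Bool, vok o6 d6 o9 d9 o11 d11 = true →
    vok o9 d9 o7 d7 o14 d14 = true →
    ((o0 && d0).toNat + (o1 && d1).toNat + (o2 && d2).toNat + (o3 && d3).toNat +
      (o4 && d4).toNat + (o5 && d5).toNat + (o6 && d6).toNat + (o7 && d7).toNat +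
      (o8 && d8).toNat + (o9 && d9).toNat + (o10 && d10).toNat + (o11 && d11).toNat +
      (o12 && d12).toNat + (o13 && d13).toNat + (o14 && d14).toNat) % 4 = 0 := by
  decide

/-- Parity check at a vertex. -/
def pok (a b c : Bool) : Bool := !(a ^^ (b ^^ c))

set_option synthInstance.maxSize 100000 in
theorem fin_par0 :
    ∀ d0 d1 d11 : Bool, pok d1 d0 d11 = true →
    ∀ d2 d12 : Bool, pok d2 d1 d12 = true →
    ∀ d3 d13 : Bool, pok d3 d2 d13 = true →
    ∀ d4 d14 : Bool, pok d4 d3 d14 = true →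
    ∀ d5 d8 d10 : Bool, pok d5 d8 d10 = true →
    ∀ d6 d9 : Bool, pok d6 d9 d11 = true →
    ∀ d7 : Bool, pok d7 d5 d12 = true →
    pok d8 d6 d13 = true →
    pok d9 d7 d14 = true →
    pok d0 d4 d10 = true := by
  decide

/-- One if none of the three bits is on. -/
def un (a b c : Bool) : ℕ := if (a || b || c) then 0 else 1

/-- Zero if exactly the first two bits are on, one otherwise. -/
def wr (a b c : Bool) : ℕ := if (a && b && !c) then 0 else 1

set_option synthInstance.maxSize 100000 in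
theorem fin_base :
    ∀ o0 o4 o10 : Bool, pok o0 o4 o10 = true →
    ∀ o1 o11 : Bool, pok o1 o0 o11 = true →
    ∀ o3 o14 : Bool, pok o4 o3 o14 = true →
    ∀ o2 o12 : Bool, pok o2 o1 o12 = true →
    ∀ o13 : Bool, pok o3 o2 o13 = true →
    ∀ o5 o8 : Bool, pok o5 o8 o10 = true →
    ∀ o7 : Bool, pok o7 o5 o12 = true →
    ∀ o6 : Bool, pok o8 o6 o13 = true →
    ∀ o9 : Bool, pok o6 o9 o11 = true →
    pok o9 o7 o14 = true →
    (3 ≤ un o0 o4 o10 + un o1 o0 o11 + un o2 o1 o12 + un o3 o2 o13 + un o4 o3 o14 +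
      wr o5 o8 o10 + wr o6 o9 o11 + wr o7 o5 o12 + wr o8 o6 o13 + wr o9 o7 o14) ∨
    (un o0 o4 o10 = 0 ∧ un o1 o0 o11 = 0 ∧ un o2 o1 o12 = 0 ∧ un o3 o2 o13 = 0 ∧
      un o4 o3 o14 = 0 ∧ un o5 o8 o10 = 0 ∧ un o6 o9 o11 = 0 ∧ un o7 o5 o12 = 0 ∧
      un o8 o6 o13 = 0 ∧ un o9 o7 o14 = 0) := by
  decide

end Pool.Agent.Scc961
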