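import Mathlib
import Pool.Agent.Scc961.Fin10

/-!
Families of even edge sets covering every edge of the Petersen graph (or of a part of it) once or
twice. A family indexed by `ι` is encoded by a map from edges to `ι → Bool`.
-/

namespace Pool.Agent.Scc961

variable {ι : Type} [Fintype ι]

/-- The number of members of the family that contain the edge. -/
def dep (x : ι → Bool) : ℕ := ∑ j, (x j).toNat

/-- At a vertex with the three edges `a`, `b`, `c` every member of the family has even degree. -/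
def Par3 (a b c : ι → Bool) : Prop := ∀ j, (a j ^^ (b j ^^ c j)) = false

theorem dep_add3 (a b c : ι → Bool) :
    dep a + dep b + dep c = ∑ j, ((a j).toNat + (b j).toNat + (c j).toNat) := by
  simp only [dep, Finset.sum_add_distrib]

theorem par3_even {a b c : ι → Bool} (h : Par3 a b c) : Even (dep a + dep b + dep c) := by
  rw [dep_add3]
  apply Finset.even_sum
  intro j _
  have := h j
  revert this
  cases a j <;> cases b j <;> cases c j <;> simp

theorem not_both_aux {a b c : ι → Bool} (h : Par3 a b c) (ha : dep a = 1) (hb : dep b = 1)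
    (hc : dep c = 2) (j : ι) : (a j && b j) = false := by
  classical
  by_contra hab
  have hab' : a j = true ∧ b j = true := by
    revert hab; cases a j <;> cases b j <;> simp
  have key : ∑ i, ((c i).toNat + if i = j then 2 else 0) ≤
      ∑ i, ((a i).toNat + (b i).toNat) := by
    apply Finset.sum_le_sum
    intro i _
    have hi := h i
    by_cases hij : i = j
    · subst hij
      rw [hab'.1, hab'.2] at hi ⊢
      revert hi
      cases c i <;> simp
    · simp only [hij, if_false]
      revert hi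
      cases a i <;> cases b i <;> cases c i <;> simp
  rw [Finset.sum_add_distrib, Finset.sum_add_distrib] at key
  simp only [Finset.sum_ite_eq', Finset.mem_univ, if_true] at key
  have h1 : ∑ i, (c i).toNat = 2 := hc
  have h2 : ∑ i, (a i).toNat = 1 := ha
  have h3 : ∑ i, (b i).toNat = 1 := hb
  omega

omit [Fintype ι] in
theorem Par3.rot {a b c : ι → Bool} (h : Par3 a b c) : Par3 b c a := by
  intro j
  have := h j
  revert this
  cases a j <;> cases b j <;> cases c j <;> simp

theorem vok_of {a b c : ι → Bool} (h : Par3 a b c) (ha : dep a = 1 ∨ dep a = 2)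
    (hb : dep b = 1 ∨ dep b = 2) (hc : dep c = 1 ∨ dep c = 2) (hs : dep a + dep b + dep c = 4)
    (j : ι) :
    vok (decide (dep a = 1)) (a j) (decide (dep b = 1)) (b j) (decide (dep c = 1)) (c j) = true := by
  have hj := h j
  have cases3 : (dep a = 1 ∧ dep b = 1 ∧ dep c = 2) ∨ (dep b = 1 ∧ dep c = 1 ∧ dep a = 2) ∨
      (dep c = 1 ∧ dep a = 1 ∧ dep b = 2) := by omega
  rcases cases3 with ⟨h1, h2, h3⟩ | ⟨h1, h2, h3⟩ | ⟨h1, h2, h3⟩
  · have := not_both_aux h h1 h2 h3 j
    rw [h1, h2, h3]
    revert this hj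
    cases a j <;> cases b j <;> cases c j <;> simp [vok]
  · have := not_both_aux h.rot h1 h2 h3 j
    rw [h1, h2, h3]
    revert this hj
    cases a j <;> cases b j <;> cases c j <;> simp [vok]
  · have := not_both_aux h.rot.rot h1 h2 h3 j
    rw [h1, h2, h3]
    revert this hj
    cases a j <;> cases b j <;> cases c j <;> simp [vok]

theorem sum15 (f : Fin 15 → ℕ) : ∑ e, f e = f 0 + f 1 + f 2 + f 3 + f 4 + f 5 + f 6 + f 7 + f 8 +
    f 9 + f 10 + f 11 + f 12 + f 13 + f 14 := by
  simp only [Fin.sum_univ_succ, Fin.sum_univ_zero]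
  simp
  ring

/-- The three edges at a vertex of the Petersen graph. -/
def t10 (w : Fin 10) (k : Fin 3) : Fin 15 :=
  (([[0, 4, 10], [1, 0, 11], [2, 1, 12], [3, 2, 13], [4, 3, 14],
    [5, 8, 10], [6, 9, 11], [7, 5, 12], [8, 6, 13], [9, 7, 14]] : List (List (Fin 15))).getD
      w.val []).getD k.val 0

theorem dep_sum_toNat (y : Fin 15 → ι → Bool) :
    ∑ j, ∑ e, ((decide (dep (y e) = 1)) && y e j).toNat =
      ∑ e, (if dep (y e) = 1 then 1 else 0) := by
  rw [Finset.sum_comm]
  apply Finset.sum_congr rfl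
  intro e _
  by_cases h : dep (y e) = 1
  · simp only [h, decide_true, Bool.true_and, if_true]
    exact h
  · simp [h]

/-- The edges of the Petersen graph cannot be covered once or twice by even sets so that every
vertex is incident with exactly one edge that is covered twice. -/
theorem p10_no_cover (y : Fin 15 → ι → Bool)
    (hp : ∀ w : Fin 10, Par3 (y (t10 w 0)) (y (t10 w 1)) (y (t10 w 2)))
    (hd : ∀ e, dep (y e) = 1 ∨ dep (y e) = 2)
    (hs : ∀ w : Fin 10, dep (y (t10 w 0)) + dep (y (t10 w 1)) + dep (y (t10 w 2)) = 4) :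
    False := by
  have hv : ∀ (w : Fin 10) (j : ι),
      vok (decide (dep (y (t10 w 0)) = 1)) (y (t10 w 0) j) (decide (dep (y (t10 w 1)) = 1))
        (y (t10 w 1) j) (decide (dep (y (t10 w 2)) = 1)) (y (t10 w 2) j) = true :=
    fun w j => vok_of (hp w) (hd _) (hd _) (hd _) (hs w) j
  have h4 : ∀ j, (∑ e, ((decide (dep (y e) = 1)) && y e j).toNat) % 4 = 0 := by
    intro j
    have := fin_alt (decide (dep (y 0) = 1)) (y 0 j) (decide (dep (y 4) = 1)) (y 4 j)
      (decide (dep (y 10) = 1)) (y 10 j) (hv 0 j)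
      (decide (dep (y 1) = 1)) (y 1 j) (decide (dep (y 11) = 1)) (y 11 j) (hv 1 j)
      (decide (dep (y 3) = 1)) (y 3 j) (decide (dep (y 14) = 1)) (y 14 j) (hv 4 j)
      (decide (dep (y 2) = 1)) (y 2 j) (decide (dep (y 12) = 1)) (y 12 j) (hv 2 j)
      (decide (dep (y 13) = 1)) (y 13 j) (hv 3 j)
      (decide (dep (y 5) = 1)) (y 5 j) (decide (dep (y 8) = 1)) (y 8 j) (hv 5 j)
      (decide (dep (y 7) = 1)) (y 7 j) (hv 7 j)
      (decide (dep (y 6) = 1)) (y 6 j) (hv 8 j)
      (decide (dep (y 9) = 1)) (y 9 j) (hv 6 j) (hv 9 j)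
    rw [sum15]
    exact this
  have h5 : (∑ j, ∑ e, ((decide (dep (y e) = 1)) && y e j).toNat) % 4 = 0 := by
    rw [Finset.sum_nat_mod]
    simp [h4]
  rw [dep_sum_toNat] at h5
  have key : ∀ a b c : ℕ, (a = 1 ∨ a = 2) → (b = 1 ∨ b = 2) → (c = 1 ∨ c = 2) →
      a + b + c = 4 → (if a = 1 then 1 else 0) + (if b = 1 then 1 else 0) +
        (if c = 1 then 1 else 0) = 2 := by
    intro a b c ha hb hc h
    rcases ha with rfl | rfl <;> rcases hb with rfl | rfl <;> rcases hc with rfl | rfl <;> simp_all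
  have hk := fun w => key _ _ _ (hd (t10 w 0)) (hd (t10 w 1)) (hd (t10 w 2)) (hs w)
  have k0 : (if dep (y 0) = 1 then 1 else 0) + (if dep (y 4) = 1 then 1 else 0) +
      (if dep (y 10) = 1 then 1 else 0) = 2 := hk 0
  have k1 : (if dep (y 1) = 1 then 1 else 0) + (if dep (y 0) = 1 then 1 else 0) +
      (if dep (y 11) = 1 then 1 else 0) = 2 := hk 1
  have k2 : (if dep (y 2) = 1 then 1 else 0) + (if dep (y 1) = 1 then 1 else 0) +
      (if dep (y 12) = 1 then 1 else 0) = 2 := hk 2
  have k3 : (if dep (y 3) = 1 then 1 else 0) + (if dep (y 2) = 1 then 1 else 0) +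
      (if dep (y 13) = 1 then 1 else 0) = 2 := hk 3
  have k4 : (if dep (y 4) = 1 then 1 else 0) + (if dep (y 3) = 1 then 1 else 0) +
      (if dep (y 14) = 1 then 1 else 0) = 2 := hk 4
  have k5 : (if dep (y 5) = 1 then 1 else 0) + (if dep (y 8) = 1 then 1 else 0) +
      (if dep (y 10) = 1 then 1 else 0) = 2 := hk 5
  have k6 : (if dep (y 6) = 1 then 1 else 0) + (if dep (y 9) = 1 then 1 else 0) +
      (if dep (y 11) = 1 then 1 else 0) = 2 := hk 6
  have k7 : (if dep (y 7) = 1 then 1 else 0) + (if dep (y 5) = 1 then 1 else 0) +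
      (if dep (y 12) = 1 then 1 else 0) = 2 := hk 7
  have k8 : (if dep (y 8) = 1 then 1 else 0) + (if dep (y 6) = 1 then 1 else 0) +
      (if dep (y 13) = 1 then 1 else 0) = 2 := hk 8
  have k9 : (if dep (y 9) = 1 then 1 else 0) + (if dep (y 7) = 1 then 1 else 0) +
      (if dep (y 14) = 1 then 1 else 0) = 2 := hk 9
  have h6 : (∑ e, (if dep (y e) = 1 then 1 else 0)) = 10 := by
    rw [sum15]
    omega
  rw [h6] at h5
  norm_num at h5

omit [Fintype ι] in
theorem pok_of {a b c : ι → Bool} (h : Par3 a b c) (j : ι) : pok (a j) (b j) (c j) = true := by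
  have := h j
  simp [pok, this]

omit [Fintype ι] in
theorem par_of_pok {a b c : ι → Bool} (h : ∀ j, pok (a j) (b j) (c j) = true) : Par3 a b c := by
  intro j
  have := h j
  revert this
  cases a j <;> cases b j <;> cases c j <;> simp [pok]

/-- If all vertices but one are incident with exactly one edge that is covered twice, then the
three edges at the remaining vertex are covered twice. -/
theorem pole (y : Fin 15 → ι → Bool)
    (hp : ∀ w : Fin 10, w ≠ 0 → Par3 (y (t10 w 0)) (y (t10 w 1)) (y (t10 w 2)))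
    (hd : ∀ e, dep (y e) = 1 ∨ dep (y e) = 2)
    (hs : ∀ w : Fin 10, w ≠ 0 →
      dep (y (t10 w 0)) + dep (y (t10 w 1)) + dep (y (t10 w 2)) = 4) :
    dep (y 0) = 2 ∧ dep (y 4) = 2 ∧ dep (y 10) = 2 := by
  have h0 : Par3 (y 0) (y 4) (y 10) := by
    apply par_of_pok
    intro j
    exact fin_par0 (y 0 j) (y 1 j) (y 11 j) (pok_of (hp 1 (by decide)) j)
      (y 2 j) (y 12 j) (pok_of (hp 2 (by decide)) j)
      (y 3 j) (y 13 j) (pok_of (hp 3 (by decide)) j)
      (y 4 j) (y 14 j) (pok_of (hp 4 (by decide)) j)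
      (y 5 j) (y 8 j) (y 10 j) (pok_of (hp 5 (by decide)) j)
      (y 6 j) (y 9 j) (pok_of (hp 6 (by decide)) j)
      (y 7 j) (pok_of (hp 7 (by decide)) j)
      (pok_of (hp 8 (by decide)) j) (pok_of (hp 9 (by decide)) j)
  have he := par3_even h0
  have d0 := hd 0
  have d4 := hd 4
  have d10 := hd 10
  by_cases hsum : dep (y 0) + dep (y 4) + dep (y 10) = 4
  · exfalso
    apply p10_no_cover y
    · intro w
      by_cases hw : w = 0
      · subst hw; exact h0
      · exact hp w hw
    · exact hd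
    · intro w
      by_cases hw : w = 0
      · subst hw; exact hsum
      · exact hs w hw
  · obtain ⟨r, hr⟩ := he
    omega

/-- The gadget: two vertices joined by an edge `m` and both joined to a copy of the Petersen graph
minus a vertex. If every vertex is incident with exactly one edge covered twice, then the first
two terminals are covered once and the third one is covered twice. -/
theorem gadget (a b m : ι → Bool) (y : Fin 15 → ι → Bool)
    (hp : ∀ w : Fin 10, w ≠ 0 → Par3 (y (t10 w 0)) (y (t10 w 1)) (y (t10 w 2)))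
    (hd : ∀ e, dep (y e) = 1 ∨ dep (y e) = 2)
    (ha : dep a = 1 ∨ dep a = 2) (hb : dep b = 1 ∨ dep b = 2) (hm : dep m = 1 ∨ dep m = 2)
    (hs : ∀ w : Fin 10, w ≠ 0 →
      dep (y (t10 w 0)) + dep (y (t10 w 1)) + dep (y (t10 w 2)) = 4)
    (hsa : dep a + dep m + dep (y 0) = 4) (hsb : dep b + dep m + dep (y 4) = 4) :
    dep a = 1 ∧ dep b = 1 ∧ dep (y 10) = 2 := by
  obtain ⟨h0, h4, h10⟩ := pole y hp hd hs
  omega

omit [Fintype ι] in
/-- The parity condition at the third terminal set of the gadget follows from the parity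
conditions at its vertices. -/
theorem gadget_par (a b m : ι → Bool) (y : Fin 15 → ι → Bool)
    (hp : ∀ w : Fin 10, w ≠ 0 → Par3 (y (t10 w 0)) (y (t10 w 1)) (y (t10 w 2)))
    (hpa : Par3 a m (y 0)) (hpb : Par3 b m (y 4)) :
    Par3 a b (y 10) := by
  have h0 : Par3 (y 0) (y 4) (y 10) := by
    apply par_of_pok
    intro j
    exact fin_par0 (y 0 j) (y 1 j) (y 11 j) (pok_of (hp 1 (by decide)) j)
      (y 2 j) (y 12 j) (pok_of (hp 2 (by decide)) j)
      (y 3 j) (y 13 j) (pok_of (hp 3 (by decide)) j)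
      (y 4 j) (y 14 j) (pok_of (hp 4 (by decide)) j)
      (y 5 j) (y 8 j) (y 10 j) (pok_of (hp 5 (by decide)) j)
      (y 6 j) (y 9 j) (pok_of (hp 6 (by decide)) j)
      (y 7 j) (pok_of (hp 7 (by decide)) j)
      (pok_of (hp 8 (by decide)) j) (pok_of (hp 9 (by decide)) j)
  intro j
  have h1 := h0 j
  have h2 := hpa j
  have h3 := hpb j
  revert h1 h2 h3
  cases a j <;> cases b j <;> cases m j <;> cases y 0 j <;> cases y 4 j <;> cases y 10 j <;> simp

end Pool.Agent.Scc961
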