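import Mathlib
import Pool.Agent.Scc961.Defs
import Pool.Agent.Scc961.Labels

/-!
The explicit graph: the Petersen graph in which each of the five inner vertices is replaced by the
gadget (a triangle one vertex of which is replaced by the Petersen graph minus a vertex). It has 60
vertices and 90 edges.

Vertices: `0..4` are the outer vertices, and `5 + 11 i + m` (`i < 5`, `m < 11`) are the vertices of
the `i`-th gadget. Edges: `0..4` the outer edges, `5..9` the inner edges, `10..14` the spokes and
`15 + 15 i + k` (`i < 5`, `k < 15`) the edges inside the `i`-th gadget.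
-/

namespace Pool.Agent.Scc961

/-- Local first ends of the edges inside a gadget. -/
def pA (k : ℕ) : ℕ := ([0, 0, 1, 2, 3, 4, 6, 7, 8, 9, 10, 2, 3, 4, 5] : List ℕ).getD k 0

/-- Local second ends of the edges inside a gadget. -/
def pB (k : ℕ) : ℕ := ([1, 2, 5, 3, 4, 5, 8, 9, 10, 6, 7, 7, 8, 9, 10] : List ℕ).getD k 0

/-- First end of an edge. -/
def endA (e : ℕ) : ℕ :=
  if e < 5 then e else if e < 10 then 5 + 11 * (e - 5) else if e < 15 then e - 10
  else 5 + 11 * ((e - 15) / 15) + pA ((e - 15) % 15)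

/-- Second end of an edge. -/
def endB (e : ℕ) : ℕ :=
  if e < 5 then (e + 1) % 5 else if e < 10 then 5 + 11 * ((e - 5 + 2) % 5) + 1
  else if e < 15 then 5 + 11 * (e - 10) + 6
  else 5 + 11 * ((e - 15) / 15) + pB ((e - 15) % 15)

theorem endA_lt : ∀ e : Fin 90, endA e.val < 60 := by decide

theorem endB_lt : ∀ e : Fin 90, endB e.val < 60 := by decide

theorem endA_ne : ∀ e : Fin 90, endA e.val ≠ endB e.val := by decide

/-- Incidence. -/
def inc (e : Fin 90) (v : Fin 60) : Prop := v.val = endA e.val ∨ v.val = endB e.val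

instance (e : Fin 90) (v : Fin 60) : Decidable (inc e v) := by
  unfold inc; infer_instance

/-- The graph on 60 vertices. -/
def G60 : MGraph where
  V := Fin 60
  E := Fin 90
  finV := inferInstance
  finE := inferInstance
  Inc := inc
  two_ends := fun e => ⟨⟨endA e.val, endA_lt e⟩, ⟨endB e.val, endB_lt e⟩,
    fun h => endA_ne e (congrArg Fin.val h), fun v => by
      simp only [inc, Fin.ext_iff]⟩

/-- Edges of the copy of the Petersen graph minus a vertex in the `i`-th gadget (including the
three edges leaving it), as edges of the graph. -/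
def qE (i : ℕ) (e : ℕ) : ℕ :=
  if e = 10 then 10 + i
  else 15 + 15 * i + ([1, 3, 4, 5, 2, 6, 7, 8, 9, 10, 0, 11, 12, 13, 14] : List ℕ).getD e 0

theorem qE_lt : ∀ (i : Fin 5) (e : Fin 15), qE i.val e.val < 90 := by decide

/-- `qE` with values in `Fin 90`. -/
def q (i : Fin 5) (e : Fin 15) : Fin 90 := ⟨qE i.val e.val, qE_lt i e⟩

/-- The three edges at a vertex. -/
def triN (v : ℕ) (k : ℕ) : ℕ :=
  if v < 5 then ([v, (v + 4) % 5, 10 + v] : List ℕ).getD k 0
  else
    let i := (v - 5) / 11
    let m := (v - 5) % 11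
    if m = 0 then ([5 + i, 15 + 15 * i, 15 + 15 * i + 1] : List ℕ).getD k 0
    else if m = 1 then ([5 + (i + 3) % 5, 15 + 15 * i, 15 + 15 * i + 2] : List ℕ).getD k 0
    else qE i ((([[0, 4, 10], [1, 0, 11], [2, 1, 12], [3, 2, 13], [4, 3, 14],
      [5, 8, 10], [6, 9, 11], [7, 5, 12], [8, 6, 13], [9, 7, 14]] : List (List ℕ)).getD
        (m - 1) []).getD k 0)

theorem triN_lt : ∀ (v : Fin 60) (k : Fin 3), triN v.val k.val < 90 := by decide

/-- The three edges at a vertex. -/
def tri (v : Fin 60) (k : Fin 3) : Fin 90 := ⟨triN v.val k.val, triN_lt v k⟩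

theorem inc_iff : ∀ (v : Fin 60) (e : Fin 90),
    inc e v ↔ (e = tri v 0 ∨ e = tri v 1 ∨ e = tri v 2) := by decide

theorem tri_ne : ∀ v : Fin 60, tri v 0 ≠ tri v 1 ∧ tri v 0 ≠ tri v 2 ∧ tri v 1 ≠ tri v 2 := by
  decide

end Pool.Agent.Scc961
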