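import Mathlib
import Pool.Agent.Scc961.Graph

/-!
Certificates for the explicit graph: three pairwise disjoint walks from each vertex to a smaller
one (3-edge-connectivity), and a cycle cover of length 122.
-/

namespace Pool.Agent.Scc961

/-- For each vertex `v` from 1 to 59: a smaller vertex and three walks (lists of edges) from `v`
to it. -/
def cert : List (ℕ × List (List ℕ)) := [
  (0, [[0], [1, 2, 3, 4], [11, 36, 42, 33, 31, 6, 60, 8, 17, 20, 28, 24, 10]]),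
  (0, [[1, 0], [2, 3, 4], [12, 51, 53, 59, 47, 5, 16, 18, 27, 21, 10]]),
  (0, [[2, 1, 0], [3, 4], [13, 66, 72, 63, 61, 8, 17, 20, 28, 24, 10]]),
  (1, [[3, 2, 1], [4, 0], [14, 81, 87, 78, 76, 9, 32, 35, 43, 39, 11]]),
  (2, [[5, 47, 50, 58, 54, 12], [15, 8, 61, 63, 72, 66, 13, 2], [16, 18, 27, 21, 10, 0, 1]]),
  (5, [[8, 60, 6, 30, 9, 75, 7, 45, 5], [15], [17, 29, 25, 26, 16]]),
  (5, [[16], [18, 19, 20, 17, 15], [26, 22, 24, 10, 0, 1, 12, 51, 53, 59, 47, 5]]),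
  (7, [[18], [19, 20, 17, 15, 16], [27, 23, 25, 26]]),
  (7, [[19, 18], [20, 17, 15, 16], [28, 22, 26]]),
  (7, [[17, 15, 16], [20, 19, 18], [29, 25, 26]]),
  (7, [[10, 0, 1, 12, 51, 53, 59, 47, 5, 16], [21, 27, 18], [24, 22, 26]]),
  (8, [[22, 28, 19], [25, 23, 27], [26, 18]]),
  (9, [[21, 24, 28], [23, 29, 20], [27, 19]]),
  (8, [[22, 26, 18], [24, 21, 27], [28, 19]]),
  (8, [[23, 27], [25, 26, 18], [29, 20, 19]]),
  (3, [[6, 62, 65, 73, 69, 13], [30, 9, 76, 78, 87, 81, 14, 3], [31, 33, 42, 36, 11, 1, 2]]),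
  (16, [[9, 75, 7, 45, 5, 15, 8, 60, 6], [30], [32, 44, 40, 41, 31]]),
  (16, [[31], [33, 34, 35, 32, 30], [41, 37, 39, 11, 1, 2, 13, 66, 68, 74, 62, 6]]),
  (18, [[33], [34, 35, 32, 30, 31], [42, 38, 40, 41]]),
  (18, [[34, 33], [35, 32, 30, 31], [43, 37, 41]]),
  (18, [[32, 30, 31], [35, 34, 33], [44, 40, 41]]),
  (18, [[11, 1, 2, 13, 66, 68, 74, 62, 6, 31], [36, 42, 33], [39, 37, 41]]),
  (19, [[37, 43, 34], [40, 38, 42], [41, 33]]),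
  (20, [[36, 39, 43], [38, 44, 35], [42, 34]]),
  (19, [[37, 41, 33], [39, 36, 42], [43, 34]]),
  (19, [[38, 42], [40, 41, 33], [44, 35, 34]]),
  (0, [[7, 77, 80, 88, 84, 14, 4], [45, 5, 16, 18, 27, 21, 10], [46, 48, 57, 51, 12, 1, 0]]),
  (27, [[5, 15, 8, 60, 6, 30, 9, 75, 7], [45], [47, 59, 55, 56, 46]]),
  (27, [[46], [48, 49, 50, 47, 45], [56, 52, 54, 12, 2, 3, 14, 81, 83, 89, 77, 7]]),
  (29, [[48], [49, 50, 47, 45, 46], [57, 53, 55, 56]]),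
  (29, [[49, 48], [50, 47, 45, 46], [58, 52, 56]]),
  (29, [[47, 45, 46], [50, 49, 48], [59, 55, 56]]),
  (29, [[12, 2, 3, 14, 81, 83, 89, 77, 7, 46], [51, 57, 48], [54, 52, 56]]),
  (30, [[52, 58, 49], [55, 53, 57], [56, 48]]),
  (31, [[51, 54, 58], [53, 59, 50], [57, 49]]),
  (30, [[52, 56, 48], [54, 51, 57], [58, 49]]),
  (30, [[53, 57], [55, 56, 48], [59, 50, 49]]),
  (0, [[8, 17, 20, 28, 24, 10], [60, 6, 31, 33, 42, 36, 11, 0], [61, 63, 72, 66, 13, 3, 4]]),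
  (38, [[6, 30, 9, 75, 7, 45, 5, 15, 8], [60], [62, 74, 70, 71, 61]]),
  (38, [[61], [63, 64, 65, 62, 60], [71, 67, 69, 13, 3, 4, 10, 21, 23, 29, 17, 8]]),
  (40, [[63], [64, 65, 62, 60, 61], [72, 68, 70, 71]]),
  (40, [[64, 63], [65, 62, 60, 61], [73, 67, 71]]),
  (40, [[62, 60, 61], [65, 64, 63], [74, 70, 71]]),
  (40, [[13, 3, 4, 10, 21, 23, 29, 17, 8, 61], [66, 72, 63], [69, 67, 71]]),
  (41, [[67, 73, 64], [70, 68, 72], [71, 63]]),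
  (42, [[66, 69, 73], [68, 74, 65], [72, 64]]),
  (41, [[67, 71, 63], [69, 66, 72], [73, 64]]),
  (41, [[68, 72], [70, 71, 63], [74, 65, 64]]),
  (1, [[9, 32, 35, 43, 39, 11], [75, 7, 46, 48, 57, 51, 12, 1], [76, 78, 87, 81, 14, 4, 0]]),
  (49, [[7, 45, 5, 15, 8, 60, 6, 30, 9], [75], [77, 89, 85, 86, 76]]),
  (49, [[76], [78, 79, 80, 77, 75], [86, 82, 84, 14, 4, 0, 11, 36, 38, 44, 32, 9]]),
  (51, [[78], [79, 80, 77, 75, 76], [87, 83, 85, 86]]),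
  (51, [[79, 78], [80, 77, 75, 76], [88, 82, 86]]),
  (51, [[77, 75, 76], [80, 79, 78], [89, 85, 86]]),
  (51, [[14, 4, 0, 11, 36, 38, 44, 32, 9, 76], [81, 87, 78], [84, 82, 86]]),
  (52, [[82, 88, 79], [85, 83, 87], [86, 78]]),
  (53, [[81, 84, 88], [83, 89, 80], [87, 79]]),
  (52, [[82, 86, 78], [84, 81, 87], [88, 79]]),
  (52, [[83, 87], [85, 86, 78], [89, 80, 79]])]

/-- The cycles of the cover, as lists of edges in cyclic order. -/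
def cyc : List (List ℕ) := [
  [0, 1, 12, 51, 57, 48, 46, 7, 77, 80, 88, 84, 14, 3, 13, 66, 72, 63, 61, 8, 17, 20, 28, 24, 10],
  [34, 43, 37, 40, 38, 42],
  [0, 11, 36, 42, 33, 31, 6, 62, 65, 73, 69, 13, 2, 12, 54, 58, 50, 47, 5, 16, 18, 27, 21, 10],
  [75, 77, 89, 85, 86, 76],
  [0, 11, 39, 43, 35, 32, 9, 76, 78, 87, 81, 14, 4],
  [19, 28, 22, 25, 23, 27],
  [45, 47, 59, 55, 56, 46],
  [60, 62, 74, 70, 71, 61],
  [15, 17, 29, 25, 26, 16],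
  [30, 32, 44, 40, 41, 31],
  [49, 58, 52, 55, 53, 57],
  [64, 73, 67, 70, 68, 72],
  [79, 88, 82, 85, 83, 87]]

end Pool.Agent.Scc961
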