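import Mathlib
import Pool.Agent.Scc961.Data

/-!
The explicit graph is cubic, 3-edge-connected and has a cycle cover of length at most 122.
-/

namespace Pool.Agent.Scc961

open MGraph

/-- The other end of an edge. -/
def oth (e v : ℕ) : ℕ := if v = endA e then endB e else endA e

/-- The list of edges is a walk from the first to the last argument. -/
def walkOK : ℕ → List ℕ → ℕ → Bool
  | v, [], u => v == u
  | v, e :: l, u => (decide (e < 90) && (v == endA e || v == endB e)) && walkOK (oth e v) l u

/-- Adjacency avoiding `S`. -/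
def R (S : Set (Fin 90)) (x y : Fin 60) : Prop := ∃ e, e ∉ S ∧ inc e x ∧ inc e y

theorem R_symm {S : Set (Fin 90)} {x y : Fin 60} (h : R S x y) : R S y x := by
  obtain ⟨e, h1, h2, h3⟩ := h
  exact ⟨e, h1, h3, h2⟩

theorem walk_reach (S : Set (Fin 90)) : ∀ (l : List ℕ) (v u : ℕ) (hv : v < 60) (hu : u < 60),
    walkOK v l u = true → (∀ (e : ℕ) (he : e < 90), e ∈ l → (⟨e, he⟩ : Fin 90) ∉ S) →
    Relation.ReflTransGen (R S) ⟨v, hv⟩ ⟨u, hu⟩ := by
  intro l
  induction l with
  | nil =>
    intro v u hv hu h _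
    simp only [walkOK, beq_iff_eq] at h
    subst h
    exact Relation.ReflTransGen.refl
  | cons e l ih =>
    intro v u hv hu h hS
    simp only [walkOK, Bool.and_eq_true, decide_eq_true_eq, Bool.or_eq_true, beq_iff_eq] at h
    obtain ⟨⟨he, hve⟩, hw⟩ := h
    have hA := endA_lt ⟨e, he⟩
    have hB := endB_lt ⟨e, he⟩
    have hne := endA_ne ⟨e, he⟩
    simp only at hA hB hne
    have ho : oth e v < 60 := by
      unfold oth; split_ifs <;> assumption
    have hin : inc ⟨e, he⟩ ⟨oth e v, ho⟩ := by
      unfold inc oth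
      simp only
      split_ifs
      · right; rfl
      · left; rfl
    refine Relation.ReflTransGen.head ?_ (ih (oth e v) u ho hu hw ?_)
    · exact ⟨⟨e, he⟩, hS e he (by simp), hve, hin⟩
    · intro f hf hfl
      exact hS f hf (by simp [hfl])

/-- Disjointness of two lists. -/
def disj (l l' : List ℕ) : Bool := l.all fun e => !(l'.contains e)

/-- Check of one entry of the certificate. -/
def certOK (v : ℕ) (c : ℕ × List (List ℕ)) : Bool :=
  decide (c.1 < v) &&
  (match c.2 with
    | [l1, l2, l3] => walkOK v l1 c.1 && walkOK v l2 c.1 && walkOK v l3 c.1 &&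
        disj l1 l2 && disj l1 l3 && disj l2 l3
    | _ => false)

theorem cert_ok : ∀ v : Fin 60, v.val ≠ 0 → certOK v.val (cert.getD (v.val - 1) (0, [])) = true := by
  decide

theorem not_mem_of_disj {l l' : List ℕ} (h : disj l l' = true) {e : ℕ} (he : e ∈ l) : e ∉ l' := by
  have := List.all_eq_true.1 h e he
  simpa using this

theorem avoid {S : Set (Fin 90)} (hS : S.ncard ≤ 2) {l1 l2 l3 : List ℕ}
    (h12 : disj l1 l2 = true) (h13 : disj l1 l3 = true) (h23 : disj l2 l3 = true) :
    (∀ (e : ℕ) (he : e < 90), e ∈ l1 → (⟨e, he⟩ : Fin 90) ∉ S) ∨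
    (∀ (e : ℕ) (he : e < 90), e ∈ l2 → (⟨e, he⟩ : Fin 90) ∉ S) ∨
    (∀ (e : ℕ) (he : e < 90), e ∈ l3 → (⟨e, he⟩ : Fin 90) ∉ S) := by
  by_contra hcon
  push Not at hcon
  obtain ⟨⟨a, ha, ha1, haS⟩, ⟨b, hb, hb1, hbS⟩, ⟨c, hc, hc1, hcS⟩⟩ := hcon
  have hab : (⟨a, ha⟩ : Fin 90) ≠ ⟨b, hb⟩ := by
    intro h
    have : a = b := congrArg Fin.val h
    subst this
    exact not_mem_of_disj h12 ha1 hb1
  have hac : (⟨a, ha⟩ : Fin 90) ≠ ⟨c, hc⟩ := by
    intro h
    have : a = c := congrArg Fin.val h
    subst this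
    exact not_mem_of_disj h13 ha1 hc1
  have hbc : (⟨b, hb⟩ : Fin 90) ≠ ⟨c, hc⟩ := by
    intro h
    have : b = c := congrArg Fin.val h
    subst this
    exact not_mem_of_disj h23 hb1 hc1
  have hsub : ({⟨a, ha⟩, ⟨b, hb⟩, ⟨c, hc⟩} : Set (Fin 90)) ⊆ S := by
    intro x hx
    simp only [Set.mem_insert_iff, Set.mem_singleton_iff] at hx
    rcases hx with rfl | rfl | rfl <;> assumption
  have h3 : ({⟨a, ha⟩, ⟨b, hb⟩, ⟨c, hc⟩} : Set (Fin 90)).ncard = 3 := by
    rw [Set.ncard_eq_three]
    exact ⟨_, _, _, hab, hac, hbc, rfl⟩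
  have := Set.ncard_le_ncard hsub (Set.toFinite S)
  omega

theorem to_zero (S : Set (Fin 90)) (hS : S.ncard ≤ 2) :
    ∀ (n : ℕ) (hn : n < 60), Relation.ReflTransGen (R S) ⟨n, hn⟩ ⟨0, by norm_num⟩ := by
  intro n
  induction n using Nat.strong_induction_on with
  | _ n ih =>
    intro hn
    by_cases h0 : n = 0
    · subst h0
      exact Relation.ReflTransGen.refl
    · have h := cert_ok ⟨n, hn⟩ h0
      simp only at h
      generalize cert.getD (n - 1) (0, []) = c at h
      obtain ⟨u, ls⟩ := c
      simp only [certOK, Bool.and_eq_true, decide_eq_true_eq] at h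
      obtain ⟨hu, h⟩ := h
      have hu60 : u < 60 := by omega
      split at h
      · rename_i l1 l2 l3
        simp only [Bool.and_eq_true] at h
        obtain ⟨⟨⟨⟨⟨w1, w2⟩, w3⟩, d12⟩, d13⟩, d23⟩ := h
        refine Relation.ReflTransGen.trans ?_ (ih u hu hu60)
        rcases avoid hS d12 d13 d23 with h | h | h
        · exact walk_reach S l1 n u hn hu60 w1 h
        · exact walk_reach S l2 n u hn hu60 w2 h
        · exact walk_reach S l3 n u hn hu60 w3 h
      · simp at h

theorem rtg_symm {α : Type} {r : α → α → Prop} (h : ∀ x y, r x y → r y x) {a b : α}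
    (hab : Relation.ReflTransGen r a b) : Relation.ReflTransGen r b a := by
  induction hab with
  | refl => exact Relation.ReflTransGen.refl
  | tail _ hbc ih => exact Relation.ReflTransGen.head (h _ _ hbc) ih

theorem G60_conn : G60.ThreeEdgeConnected := by
  refine ⟨?_, ?_⟩
  · change Nontrivial (Fin 60)
    infer_instance
  · intro S hS u v
    have hu := to_zero S hS u.val u.isLt
    have hv := to_zero S hS v.val v.isLt
    exact hu.trans (rtg_symm (fun _ _ h => R_symm h) hv)

open Classical in
theorem ncard_tri (P : Fin 90 → Prop) (v : Fin 60) :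
    {e : Fin 90 | P e ∧ inc e v}.ncard =
      (if P (tri v 0) then 1 else 0) + (if P (tri v 1) then 1 else 0) +
        (if P (tri v 2) then 1 else 0) := by
  have hset : {e : Fin 90 | P e ∧ inc e v} =
      ↑((({tri v 0, tri v 1, tri v 2} : Finset (Fin 90))).filter P) := by
    ext e
    simp only [Set.mem_ofPred_eq, inc_iff, Finset.coe_filter, Finset.mem_insert,
      Finset.mem_singleton]
    tauto
  obtain ⟨h01, h02, h12⟩ := tri_ne v
  rw [hset, Set.ncard_coe_finset, Finset.card_filter,
    Finset.sum_insert (by simp [h01, h02]), Finset.sum_insert (by simp [h12]),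
    Finset.sum_singleton]
  ring

theorem G60_cubic : G60.IsCubic := by
  intro v
  have h := ncard_tri (fun _ => True) v
  simp only [true_and, if_true] at h
  exact h

/-- Two edges share an end. -/
def share (a b : ℕ) : Bool :=
  endA a == endA b || endA a == endB b || endB a == endA b || endB a == endB b

/-- Consecutive edges share an end. -/
def chainOK : List ℕ → Bool
  | [] => true
  | [_] => true
  | a :: b :: l => share a b && chainOK (b :: l)

/-- The check that a list of edges is a cycle. -/
def cycOK (l : List ℕ) : Bool :=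
  !l.isEmpty && l.all (fun e => decide (e < 90)) && chainOK l &&
  (List.range 60).all (fun v =>
    let n := (l.contains (triN v 0)).toNat + (l.contains (triN v 1)).toNat +
      (l.contains (triN v 2)).toNat
    n == 0 || n == 2)

theorem cyc_ok : cyc.all cycOK = true := by decide

theorem cyc_cover : ∀ e : Fin 90, (cyc.any fun l => l.contains e.val) = true := by decide

theorem cyc_len : (cyc.map List.length).sum = 122 := by decide

/-- The set of edges of a list. -/
def toSet (l : List ℕ) : Set (Fin 90) := {e | e.val ∈ l}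

theorem toSet_ncard_le (l : List ℕ) : (toSet l).ncard ≤ l.length := by
  classical
  have h1 : (toSet l).ncard = ((toSet l).image Fin.val).ncard :=
    (Set.ncard_image_of_injective _ Fin.val_injective).symm
  rw [h1]
  have h2 : (Fin.val '' toSet l) ⊆ ↑l.toFinset := by
    rintro _ ⟨e, he, rfl⟩
    simpa [toSet] using he
  refine (Set.ncard_le_ncard h2 (Set.toFinite _)).trans ?_
  rw [Set.ncard_coe_finset]
  exact List.toFinset_card_le l

theorem share_inc {a b : ℕ} (ha : a < 90) (hb : b < 90) (h : share a b = true) :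
    ∃ v, inc ⟨a, ha⟩ v ∧ inc ⟨b, hb⟩ v := by
  have hA := endA_lt ⟨a, ha⟩
  have hB := endB_lt ⟨a, ha⟩
  simp only at hA hB
  simp only [share, Bool.or_eq_true, beq_iff_eq] at h
  rcases h with ((h | h) | h) | h
  · exact ⟨⟨endA a, hA⟩, Or.inl rfl, Or.inl h⟩
  · exact ⟨⟨endA a, hA⟩, Or.inl rfl, Or.inr h⟩
  · exact ⟨⟨endB a, hB⟩, Or.inr rfl, Or.inl h⟩
  · exact ⟨⟨endB a, hB⟩, Or.inr rfl, Or.inr h⟩

theorem chain_conn (C : Set (Fin 90)) : ∀ (l : List ℕ) (a : ℕ) (ha : a < 90),
    (∀ (e : ℕ) (he : e < 90), e ∈ a :: l → (⟨e, he⟩ : Fin 90) ∈ C) →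
    (∀ e ∈ a :: l, e < 90) → chainOK (a :: l) = true →
    ∀ (e : ℕ) (he : e < 90), e ∈ a :: l →
      Relation.ReflTransGen (fun a b => a ∈ C ∧ b ∈ C ∧ ∃ v, inc a v ∧ inc b v)
        ⟨a, ha⟩ ⟨e, he⟩ := by
  intro l
  induction l with
  | nil =>
    intro a ha _ _ _ e he hmem
    simp only [List.mem_singleton] at hmem
    subst hmem
    exact Relation.ReflTransGen.refl
  | cons b l ih =>
    intro a ha hC hlt hch e he hmem
    simp only [chainOK, Bool.and_eq_true] at hch
    have hb : b < 90 := hlt b (by simp)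
    rcases List.mem_cons.1 hmem with h | h
    · subst h
      exact Relation.ReflTransGen.refl
    · refine Relation.ReflTransGen.head ?_
        (ih b hb (fun e he hm => hC e he (List.mem_cons_of_mem _ hm))
          (fun e hm => hlt e (List.mem_cons_of_mem _ hm)) hch.2 e he h)
      exact ⟨hC a ha (by simp), hC b hb (by simp), share_inc ha hb hch.1⟩

theorem isCycle_of (l : List ℕ) (h : cycOK l = true) : G60.IsCycle (toSet l) := by
  classical
  simp only [cycOK, Bool.and_eq_true] at h
  obtain ⟨⟨⟨hne, hlt⟩, hch⟩, hdeg⟩ := h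
  have hlt' : ∀ e ∈ l, e < 90 := by
    intro e he
    have := List.all_eq_true.1 hlt e he
    simpa using this
  cases l with
  | nil => simp at hne
  | cons a l =>
    have ha : a < 90 := hlt' a (by simp)
    have hmem0 : (⟨a, ha⟩ : Fin 90) ∈ toSet (a :: l) := (List.mem_cons_self : a ∈ a :: l)
    refine ⟨⟨⟨a, ha⟩, hmem0⟩, ?_, ?_⟩
    · intro v
      change {e : Fin 90 | e ∈ toSet (a :: l) ∧ inc e v}.ncard = 0 ∨
        {e : Fin 90 | e ∈ toSet (a :: l) ∧ inc e v}.ncard = 2
      rw [ncard_tri (fun e => e ∈ toSet (a :: l)) v]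
      have hv := List.all_eq_true.1 hdeg v.val (List.mem_range.2 v.isLt)
      have conv : ∀ k : Fin 3, ((a :: l).contains (triN v.val k.val)).toNat =
          (if tri v k ∈ toSet (a :: l) then 1 else 0) := by
        intro k
        by_cases hm : triN v.val k.val ∈ a :: l
        · have h1 : tri v k ∈ toSet (a :: l) := hm
          rw [if_pos h1, List.contains_iff_mem.2 hm]
          rfl
        · have h1 : tri v k ∉ toSet (a :: l) := hm
          rw [if_neg h1]
          have : (a :: l).contains (triN v.val k.val) = false := by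
            rw [Bool.eq_false_iff]
            intro h2
            exact hm (List.contains_iff_mem.1 h2)
          rw [this]
          rfl
      have c0 := conv 0
      have c1 := conv 1
      have c2 := conv 2
      simp only [Fin.val_zero, Fin.val_one, Fin.val_two] at c0 c1 c2
      simp only [c0, c1, c2, Bool.or_eq_true, beq_iff_eq] at hv
      exact hv
    · have hconn := chain_conn (toSet (a :: l)) l a ha (fun e he hm => hm) hlt' hch
      intro e he f hf
      have h1 := hconn e.val e.isLt he
      have h2 := hconn f.val f.isLt hf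
      refine Relation.ReflTransGen.trans (rtg_symm ?_ h1) h2
      rintro x y ⟨hx, hy, v, hv1, hv2⟩
      exact ⟨hy, hx, v, hv2, hv1⟩

theorem G60_scc_le : G60.scc ≤ 122 := by
  have hcov : G60.IsCycleCover (cyc.map toSet) := by
    refine ⟨?_, ?_⟩
    · intro C hC
      obtain ⟨l, hl, rfl⟩ := List.mem_map.1 hC
      exact isCycle_of l (List.all_eq_true.1 cyc_ok l hl)
    · intro e
      have h := cyc_cover e
      obtain ⟨l, hl, hel⟩ := List.any_eq_true.1 h
      exact ⟨toSet l, List.mem_map.2 ⟨l, hl, rfl⟩, List.contains_iff_mem.1 hel⟩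
  have hle : G60.coverLength (cyc.map toSet) ≤ 122 := by
    change (((cyc.map toSet).map (fun C : Set (Fin 90) => C.ncard))).sum ≤ 122
    rw [List.map_map, ← cyc_len]
    apply List.sum_le_sum
    intro l _
    exact toSet_ncard_le l
  have hmem : G60.coverLength (cyc.map toSet) ∈
      {n : ℕ | ∃ L : List (Set G60.E), G60.IsCycleCover L ∧ G60.coverLength L = n} :=
    ⟨cyc.map toSet, hcov, rfl⟩
  exact (Nat.sInf_le hmem).trans hle

end Pool.Agent.Scc961
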