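import Mathlib
import Pool.Agent.Scc961.Graph

/-!
In every family of even edge sets of the explicit graph that covers every edge once or twice, at
least three vertices are incident with three edges covered twice.
-/

namespace Pool.Agent.Scc961

variable {ι : Type} [Fintype ι]

/-- The vertices, grouped: outer vertices and gadget vertices. -/
def gv : Fin 5 ⊕ Fin 5 × Fin 11 → Fin 60
  | Sum.inl v => ⟨v.val, by omega⟩
  | Sum.inr p => ⟨5 + 11 * p.1.val + p.2.val, by omega⟩

theorem gv_inj : Function.Injective gv := by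
  rintro (a | ⟨a, b⟩) (c | ⟨c, d⟩) h
  · have := congrArg Fin.val h
    simp only [gv] at this
    congr 1
    exact Fin.ext this
  · have := congrArg Fin.val h
    simp only [gv] at this
    omega
  · have := congrArg Fin.val h
    simp only [gv] at this
    omega
  · have := congrArg Fin.val h
    simp only [gv] at this
    have h1 : a.val = c.val := by omega
    have h2 : b.val = d.val := by omega
    rw [Fin.ext h1, Fin.ext h2]

theorem gv_bij : Function.Bijective gv :=
  (Fintype.bijective_iff_injective_and_card gv).2 ⟨gv_inj, by simp⟩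

theorem sum_gv (f : Fin 60 → ℕ) :
    ∑ v, f v = ∑ v : Fin 5, f (gv (Sum.inl v)) +
      ∑ i : Fin 5, ∑ m : Fin 11, f (gv (Sum.inr (i, m))) := by
  rw [← Function.Bijective.sum_comp gv_bij, Fintype.sum_sum_type, Fintype.sum_prod_type]

theorem tri_gad (i : Fin 5) : ∀ (w : Fin 10) (_ : w ≠ 0) (k : Fin 3),
    tri (gv (Sum.inr (i, ⟨w.val + 1, by omega⟩))) k = q i (t10 w k) := by
  revert i; decide

theorem tri_v1 : ∀ i : Fin 5,
    tri (gv (Sum.inr (i, 0))) 0 = ⟨5 + i.val, by omega⟩ ∧
    tri (gv (Sum.inr (i, 0))) 1 = ⟨15 + 15 * i.val, by omega⟩ ∧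
    tri (gv (Sum.inr (i, 0))) 2 = q i 0 := by decide

theorem tri_v2 : ∀ i : Fin 5,
    tri (gv (Sum.inr (i, 1))) 0 = ⟨5 + (i.val + 3) % 5, by omega⟩ ∧
    tri (gv (Sum.inr (i, 1))) 1 = ⟨15 + 15 * i.val, by omega⟩ ∧
    tri (gv (Sum.inr (i, 1))) 2 = q i 4 := by decide

theorem q10 : ∀ i : Fin 5, q i 10 = ⟨10 + i.val, by omega⟩ := by decide

/-- The sum of the depths at a vertex. -/
def ds (x : Fin 90 → ι → Bool) (v : Fin 60) : ℕ :=
  dep (x (tri v 0)) + dep (x (tri v 1)) + dep (x (tri v 2))

/-- One if the three edges at the vertex are covered twice. -/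
def bad (x : Fin 90 → ι → Bool) (v : Fin 60) : ℕ := if ds x v = 6 then 1 else 0

theorem pok_dec {a b c : ℕ} (ha : a = 1 ∨ a = 2) (hb : b = 1 ∨ b = 2) (hc : c = 1 ∨ c = 2)
    (h : Even (a + b + c)) :
    pok (decide (a = 1)) (decide (b = 1)) (decide (c = 1)) = true := by
  rcases ha with rfl | rfl <;> rcases hb with rfl | rfl <;> rcases hc with rfl | rfl <;>
    revert h <;> decide

theorem un_dec {a b c : ℕ} (ha : a = 1 ∨ a = 2) (hb : b = 1 ∨ b = 2) (hc : c = 1 ∨ c = 2) :
    un (decide (a = 1)) (decide (b = 1)) (decide (c = 1)) = if a + b + c = 6 then 1 else 0 := by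
  rcases ha with rfl | rfl <;> rcases hb with rfl | rfl <;> rcases hc with rfl | rfl <;> decide

theorem wr_le_one (a b c : Bool) : wr a b c ≤ 1 := by
  unfold wr; split_ifs <;> simp

theorem lower (x : Fin 90 → ι → Bool)
    (hp : ∀ v, Par3 (x (tri v 0)) (x (tri v 1)) (x (tri v 2)))
    (hd : ∀ e, dep (x e) = 1 ∨ dep (x e) = 2) : 3 ≤ ∑ v, bad x v := by
  have hds : ∀ v, ds x v = 4 ∨ ds x v = 6 := by
    intro v
    have h1 := par3_even (hp v)
    have h2 := hd (tri v 0)
    have h3 := hd (tri v 1)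
    have h4 := hd (tri v 2)
    obtain ⟨r, hr⟩ := h1
    unfold ds
    omega
  -- the gadgets
  have gpar : ∀ i : Fin 5, Par3 (x ⟨5 + i.val, by omega⟩) (x ⟨5 + (i.val + 3) % 5, by omega⟩)
      (x ⟨10 + i.val, by omega⟩) := by
    intro i
    have h := gadget_par (x ⟨5 + i.val, by omega⟩) (x ⟨5 + (i.val + 3) % 5, by omega⟩)
      (x ⟨15 + 15 * i.val, by omega⟩) (fun e => x (q i e))
      (fun w hw => by
        have := hp (gv (Sum.inr (i, ⟨w.val + 1, by omega⟩)))
        rwa [tri_gad i w hw 0, tri_gad i w hw 1, tri_gad i w hw 2] at this)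
      (by
        have := hp (gv (Sum.inr (i, 0)))
        rwa [(tri_v1 i).1, (tri_v1 i).2.1, (tri_v1 i).2.2] at this)
      (by
        have := hp (gv (Sum.inr (i, 1)))
        rwa [(tri_v2 i).1, (tri_v2 i).2.1, (tri_v2 i).2.2] at this)
    simp only [q10] at h
    exact h
  have gwr : ∀ i : Fin 5, wr (decide (dep (x ⟨5 + i.val, by omega⟩) = 1))
      (decide (dep (x ⟨5 + (i.val + 3) % 5, by omega⟩) = 1))
      (decide (dep (x ⟨10 + i.val, by omega⟩) = 1)) ≤
      ∑ m : Fin 11, bad x (gv (Sum.inr (i, m))) := by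
    intro i
    by_cases hz : ∑ m : Fin 11, bad x (gv (Sum.inr (i, m))) = 0
    · have hz' : ∀ m : Fin 11, ds x (gv (Sum.inr (i, m))) = 4 := by
        intro m
        have := (Finset.sum_eq_zero_iff.1 hz) m (Finset.mem_univ m)
        rcases hds (gv (Sum.inr (i, m))) with h | h
        · exact h
        · simp [bad, h] at this
      have h := gadget (x ⟨5 + i.val, by omega⟩) (x ⟨5 + (i.val + 3) % 5, by omega⟩)
        (x ⟨15 + 15 * i.val, by omega⟩) (fun e => x (q i e))
        (fun w hw => by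
          have := hp (gv (Sum.inr (i, ⟨w.val + 1, by omega⟩)))
          rwa [tri_gad i w hw 0, tri_gad i w hw 1, tri_gad i w hw 2] at this)
        (fun e => hd _) (hd _) (hd _) (hd _)
        (fun w hw => by
          have := hz' ⟨w.val + 1, by omega⟩
          unfold ds at this
          rwa [tri_gad i w hw 0, tri_gad i w hw 1, tri_gad i w hw 2] at this)
        (by
          have := hz' 0
          unfold ds at this
          rwa [(tri_v1 i).1, (tri_v1 i).2.1, (tri_v1 i).2.2] at this)
        (by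
          have := hz' 1
          unfold ds at this
          rwa [(tri_v2 i).1, (tri_v2 i).2.1, (tri_v2 i).2.2] at this)
      simp only [q10] at h
      rw [h.1, h.2.1, h.2.2]
      simp [wr]
    · have := wr_le_one (decide (dep (x ⟨5 + i.val, by omega⟩) = 1))
        (decide (dep (x ⟨5 + (i.val + 3) % 5, by omega⟩) = 1))
        (decide (dep (x ⟨10 + i.val, by omega⟩) = 1))
      omega
  have gok : ∀ i : Fin 5, pok (decide (dep (x ⟨5 + i.val, by omega⟩) = 1))
      (decide (dep (x ⟨5 + (i.val + 3) % 5, by omega⟩) = 1))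
      (decide (dep (x ⟨10 + i.val, by omega⟩) = 1)) = true :=
    fun i => pok_dec (hd _) (hd _) (hd _) (par3_even (gpar i))
  have ook : ∀ v : Fin 60, pok (decide (dep (x (tri v 0)) = 1)) (decide (dep (x (tri v 1)) = 1))
      (decide (dep (x (tri v 2)) = 1)) = true :=
    fun v => pok_dec (hd _) (hd _) (hd _) (par3_even (hp v))
  have oun : ∀ v : Fin 60, un (decide (dep (x (tri v 0)) = 1)) (decide (dep (x (tri v 1)) = 1))
      (decide (dep (x (tri v 2)) = 1)) = bad x v :=
    fun v => un_dec (hd _) (hd _) (hd _)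
  rw [sum_gv]
  have main := fin_base (decide (dep (x 0) = 1)) (decide (dep (x 4) = 1))
    (decide (dep (x 10) = 1)) (ook 0)
    (decide (dep (x 1) = 1)) (decide (dep (x 11) = 1)) (ook 1)
    (decide (dep (x 3) = 1)) (decide (dep (x 14) = 1)) (ook 4)
    (decide (dep (x 2) = 1)) (decide (dep (x 12) = 1)) (ook 2)
    (decide (dep (x 13) = 1)) (ook 3)
    (decide (dep (x 5) = 1)) (decide (dep (x 8) = 1)) (gok 0)
    (decide (dep (x 7) = 1)) (gok 2)
    (decide (dep (x 6) = 1)) (gok 3)
    (decide (dep (x 9) = 1)) (gok 1) (gok 4)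
  rcases main with main | main
  · have u0 : un (decide (dep (x 0) = 1)) (decide (dep (x 4) = 1)) (decide (dep (x 10) = 1)) =
        bad x (gv (Sum.inl 0)) := oun 0
    have u1 : un (decide (dep (x 1) = 1)) (decide (dep (x 0) = 1)) (decide (dep (x 11) = 1)) =
        bad x (gv (Sum.inl 1)) := oun 1
    have u2 : un (decide (dep (x 2) = 1)) (decide (dep (x 1) = 1)) (decide (dep (x 12) = 1)) =
        bad x (gv (Sum.inl 2)) := oun 2
    have u3 : un (decide (dep (x 3) = 1)) (decide (dep (x 2) = 1)) (decide (dep (x 13) = 1)) =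
        bad x (gv (Sum.inl 3)) := oun 3
    have u4 : un (decide (dep (x 4) = 1)) (decide (dep (x 3) = 1)) (decide (dep (x 14) = 1)) =
        bad x (gv (Sum.inl 4)) := oun 4
    have w0 : wr (decide (dep (x 5) = 1)) (decide (dep (x 8) = 1)) (decide (dep (x 10) = 1)) ≤
        ∑ m : Fin 11, bad x (gv (Sum.inr (0, m))) := gwr 0
    have w1 : wr (decide (dep (x 6) = 1)) (decide (dep (x 9) = 1)) (decide (dep (x 11) = 1)) ≤
        ∑ m : Fin 11, bad x (gv (Sum.inr (1, m))) := gwr 1
    have w2 : wr (decide (dep (x 7) = 1)) (decide (dep (x 5) = 1)) (decide (dep (x 12) = 1)) ≤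
        ∑ m : Fin 11, bad x (gv (Sum.inr (2, m))) := gwr 2
    have w3 : wr (decide (dep (x 8) = 1)) (decide (dep (x 6) = 1)) (decide (dep (x 13) = 1)) ≤
        ∑ m : Fin 11, bad x (gv (Sum.inr (3, m))) := gwr 3
    have w4 : wr (decide (dep (x 9) = 1)) (decide (dep (x 7) = 1)) (decide (dep (x 14) = 1)) ≤
        ∑ m : Fin 11, bad x (gv (Sum.inr (4, m))) := gwr 4
    rw [Fin.sum_univ_five, Fin.sum_univ_five]
    omega
  · exfalso
    obtain ⟨a0, a1, a2, a3, a4, b0, b1, b2, b3, b4⟩ := main
    have key : ∀ a b c : ℕ, (a = 1 ∨ a = 2) → (b = 1 ∨ b = 2) → (c = 1 ∨ c = 2) →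
        Even (a + b + c) → un (decide (a = 1)) (decide (b = 1)) (decide (c = 1)) = 0 →
        a + b + c = 4 := by
      intro a b c ha hb hc he hu
      rw [un_dec ha hb hc] at hu
      obtain ⟨r, hr⟩ := he
      split_ifs at hu with h6
      omega
    have p0 : Par3 (x 0) (x 4) (x 10) := hp 0
    have p1 : Par3 (x 1) (x 0) (x 11) := hp 1
    have p2 : Par3 (x 2) (x 1) (x 12) := hp 2
    have p3 : Par3 (x 3) (x 2) (x 13) := hp 3
    have p4 : Par3 (x 4) (x 3) (x 14) := hp 4
    have p5 : Par3 (x 5) (x 8) (x 10) := gpar 0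
    have p6 : Par3 (x 6) (x 9) (x 11) := gpar 1
    have p7 : Par3 (x 7) (x 5) (x 12) := gpar 2
    have p8 : Par3 (x 8) (x 6) (x 13) := gpar 3
    have p9 : Par3 (x 9) (x 7) (x 14) := gpar 4
    have s0 : dep (x 0) + dep (x 4) + dep (x 10) = 4 :=
      key _ _ _ (hd _) (hd _) (hd _) (par3_even p0) a0
    have s1 : dep (x 1) + dep (x 0) + dep (x 11) = 4 :=
      key _ _ _ (hd _) (hd _) (hd _) (par3_even p1) a1
    have s2 : dep (x 2) + dep (x 1) + dep (x 12) = 4 :=
      key _ _ _ (hd _) (hd _) (hd _) (par3_even p2) a2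
    have s3 : dep (x 3) + dep (x 2) + dep (x 13) = 4 :=
      key _ _ _ (hd _) (hd _) (hd _) (par3_even p3) a3
    have s4 : dep (x 4) + dep (x 3) + dep (x 14) = 4 :=
      key _ _ _ (hd _) (hd _) (hd _) (par3_even p4) a4
    have s5 : dep (x 5) + dep (x 8) + dep (x 10) = 4 :=
      key _ _ _ (hd _) (hd _) (hd _) (par3_even p5) b0
    have s6 : dep (x 6) + dep (x 9) + dep (x 11) = 4 :=
      key _ _ _ (hd _) (hd _) (hd _) (par3_even p6) b1
    have s7 : dep (x 7) + dep (x 5) + dep (x 12) = 4 :=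
      key _ _ _ (hd _) (hd _) (hd _) (par3_even p7) b2
    have s8 : dep (x 8) + dep (x 6) + dep (x 13) = 4 :=
      key _ _ _ (hd _) (hd _) (hd _) (par3_even p8) b3
    have s9 : dep (x 9) + dep (x 7) + dep (x 14) = 4 :=
      key _ _ _ (hd _) (hd _) (hd _) (par3_even p9) b4
    refine p10_no_cover (fun e : Fin 15 => x ⟨e.val, by omega⟩) ?_ (fun e => hd _) ?_
    · intro w
      fin_cases w
      · exact p0
      · exact p1
      · exact p2
      · exact p3
      · exact p4
      · exact p5
      · exact p6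
      · exact p7
      · exact p8
      · exact p9
    · intro w
      fin_cases w
      · exact s0
      · exact s1
      · exact s2
      · exact s3
      · exact s4
      · exact s5
      · exact s6
      · exact s7
      · exact s8
      · exact s9

end Pool.Agent.Scc961
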