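import Mathlib
import Pool.Agent.Scc961.Lower

/-!
From four perfect matchings covering an expansion of the explicit graph to a family of four even
sets that covers every edge once or twice.
-/

namespace Pool.Agent.Scc961

open MGraph

/-- Exactly one of the three bits is on. -/
def one3 (a b c : Bool) : Bool := (a && !b && !c) || (!a && b && !c) || (!a && !b && c)

/-- The conditions at the three new vertices of an expanded vertex. -/
def in3 (a b c x y z : Bool) : Bool := one3 a x y && one3 b x z && one3 c y z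

/-- Number of bits. -/
def mul4 (a b c d : Bool) : ℕ := a.toNat + b.toNat + c.toNat + d.toNat

/-- The new label. -/
def lb (m : ℕ) (a : Bool) : Bool := if m = 1 then a else !a

/-- The conclusion at a vertex, as a Boolean. -/
def good (a0 b0 c0 a1 b1 c1 a2 b2 c2 a3 b3 c3 : Bool) : Bool :=
  (mul4 a0 a1 a2 a3 == 1 || mul4 a0 a1 a2 a3 == 2) &&
  (mul4 b0 b1 b2 b3 == 1 || mul4 b0 b1 b2 b3 == 2) &&
  (mul4 c0 c1 c2 c3 == 1 || mul4 c0 c1 c2 c3 == 2) &&
  pok (lb (mul4 a0 a1 a2 a3) a0) (lb (mul4 b0 b1 b2 b3) b0) (lb (mul4 c0 c1 c2 c3) c0) &&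
  pok (lb (mul4 a0 a1 a2 a3) a1) (lb (mul4 b0 b1 b2 b3) b1) (lb (mul4 c0 c1 c2 c3) c1) &&
  pok (lb (mul4 a0 a1 a2 a3) a2) (lb (mul4 b0 b1 b2 b3) b2) (lb (mul4 c0 c1 c2 c3) c2) &&
  pok (lb (mul4 a0 a1 a2 a3) a3) (lb (mul4 b0 b1 b2 b3) b3) (lb (mul4 c0 c1 c2 c3) c3)

set_option synthInstance.maxSize 100000 in
theorem fin_out :
    ∀ a0 b0 c0 : Bool, one3 a0 b0 c0 = true →
    ∀ a1 b1 c1 : Bool, one3 a1 b1 c1 = true →
    ∀ a2 b2 c2 : Bool, one3 a2 b2 c2 = true →
    ∀ a3 b3 c3 : Bool, one3 a3 b3 c3 = true →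
    (a0 || a1 || a2 || a3) = true → (b0 || b1 || b2 || b3) = true →
    (c0 || c1 || c2 || c3) = true →
    good a0 b0 c0 a1 b1 c1 a2 b2 c2 a3 b3 c3 = true ∧
    mul4 a0 a1 a2 a3 + mul4 b0 b1 b2 b3 + mul4 c0 c1 c2 c3 = 4 := by
  decide

set_option synthInstance.maxSize 100000 in
theorem fin_in :
    ∀ a0 b0 c0 x0 y0 z0 : Bool, in3 a0 b0 c0 x0 y0 z0 = true →
    ∀ a1 b1 c1 x1 y1 z1 : Bool, in3 a1 b1 c1 x1 y1 z1 = true →
    ∀ a2 b2 c2 x2 y2 z2 : Bool, in3 a2 b2 c2 x2 y2 z2 = true →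
    ∀ a3 b3 c3 x3 y3 z3 : Bool, in3 a3 b3 c3 x3 y3 z3 = true →
    (x0 || x1 || x2 || x3) = true → (y0 || y1 || y2 || y3) = true →
    (z0 || z1 || z2 || z3) = true →
    good a0 b0 c0 a1 b1 c1 a2 b2 c2 a3 b3 c3 = true := by
  decide

/-- The label of an edge made from the set of matchings that contain it. -/
def lab (A : Fin 4 → Bool) (i : Fin 4) : Bool := lb (dep A) (A i)

theorem dep_eq (A : Fin 4 → Bool) : dep A = mul4 (A 0) (A 1) (A 2) (A 3) := by
  simp only [dep, mul4, Fin.sum_univ_four]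

theorem dep_lab (A : Fin 4 → Bool) (h : dep A = 1 ∨ dep A = 2) : dep (lab A) = dep A := by
  rcases h with h | h
  · have : lab A = A := by
      funext i
      simp [lab, lb, h]
    rw [this]
  · have h2 : ∀ i, lab A i = !(A i) := by
      intro i
      simp [lab, lb, h]
    rw [dep_eq (lab A), h2 0, h2 1, h2 2, h2 3]
    rw [dep_eq] at h ⊢
    revert h
    generalize A 0 = a
    generalize A 1 = b
    generalize A 2 = c
    generalize A 3 = d
    revert a b c d
    decide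

theorem good_concl (A B C : Fin 4 → Bool)
    (h : good (A 0) (B 0) (C 0) (A 1) (B 1) (C 1) (A 2) (B 2) (C 2) (A 3) (B 3) (C 3) = true) :
    (dep A = 1 ∨ dep A = 2) ∧ (dep B = 1 ∨ dep B = 2) ∧ (dep C = 1 ∨ dep C = 2) ∧
      Par3 (lab A) (lab B) (lab C) := by
  simp only [good, Bool.and_eq_true, Bool.or_eq_true, beq_iff_eq, ← dep_eq] at h
  obtain ⟨⟨⟨⟨⟨⟨hA, hB⟩, hC⟩, h0⟩, h1⟩, h2⟩, h3⟩ := h
  refine ⟨hA, hB, hC, par_of_pok ?_⟩
  intro j
  fin_cases j
  · exact h0
  · exact h1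
  · exact h2
  · exact h3

open Classical in
theorem one3_of {E : Type} (M : Set E) (I : E → Prop) (e1 e2 e3 : E)
    (h12 : e1 ≠ e2) (h13 : e1 ≠ e3) (h23 : e2 ≠ e3)
    (hI : ∀ e, I e ↔ (e = e1 ∨ e = e2 ∨ e = e3))
    (h : ∃! e, e ∈ M ∧ I e) :
    one3 (decide (e1 ∈ M)) (decide (e2 ∈ M)) (decide (e3 ∈ M)) = true := by
  obtain ⟨e, ⟨heM, heI⟩, huniq⟩ := h
  have k1 : e1 ∈ M → e1 = e := fun h1 => huniq e1 ⟨h1, (hI e1).2 (Or.inl rfl)⟩
  have k2 : e2 ∈ M → e2 = e := fun h1 => huniq e2 ⟨h1, (hI e2).2 (Or.inr (Or.inl rfl))⟩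
  have k3 : e3 ∈ M → e3 = e := fun h1 => huniq e3 ⟨h1, (hI e3).2 (Or.inr (Or.inr rfl))⟩
  rcases (hI e).1 heI with he | he | he
  · subst he
    have n2 : e2 ∉ M := fun h1 => h12 (k2 h1).symm
    have n3 : e3 ∉ M := fun h1 => h13 (k3 h1).symm
    simp [one3, heM, n2, n3]
  · subst he
    have n1 : e1 ∉ M := fun h1 => h12 (k1 h1)
    have n3 : e3 ∉ M := fun h1 => h23 (k3 h1).symm
    simp [one3, heM, n1, n3]
  · subst he
    have n1 : e1 ∉ M := fun h1 => h13 (k1 h1)
    have n2 : e2 ∉ M := fun h1 => h23 (k2 h1)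
    simp [one3, heM, n1, n2]

section

variable (U : Set (Fin 60)) (M : Fin 4 → Set (G60.ExpE U))

open Classical in
/-- The set of matchings containing an old edge. -/
noncomputable def AA (e : Fin 90) (i : Fin 4) : Bool :=
  decide ((Sum.inl e : G60.ExpE U) ∈ M i)

theorem AA_or (hcov : ∀ e : G60.ExpE U, ∃ i, e ∈ M i) (e : Fin 90) :
    (AA U M e 0 || AA U M e 1 || AA U M e 2 || AA U M e 3) = true := by
  obtain ⟨i, hi⟩ := hcov (Sum.inl e)
  have : AA U M e i = true := by simp [AA, hi]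
  fin_cases i <;> simp_all

theorem at_out (v : Fin 60) (hv : v ∉ U)
    (hM : ∀ i, ∀ w : G60.ExpV U, ∃! e, e ∈ M i ∧ G60.ExpInc U e w) (i : Fin 4) :
    one3 (AA U M (tri v 0) i) (AA U M (tri v 1) i) (AA U M (tri v 2) i) = true := by
  obtain ⟨h01, h02, h12⟩ := tri_ne v
  have h := one3_of (M i) (fun e => G60.ExpInc U e (Sum.inl ⟨v, hv⟩))
    (Sum.inl (tri v 0)) (Sum.inl (tri v 1)) (Sum.inl (tri v 2))
    (fun h => h01 (Sum.inl.inj h)) (fun h => h02 (Sum.inl.inj h)) (fun h => h12 (Sum.inl.inj h))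
    (by
      rintro (e | e)
      · change inc e v ↔ _
        rw [inc_iff v e]
        constructor
        · rintro (h | h | h)
          · exact Or.inl (congrArg Sum.inl h)
          · exact Or.inr (Or.inl (congrArg Sum.inl h))
          · exact Or.inr (Or.inr (congrArg Sum.inl h))
        · rintro (h | h | h)
          · exact Or.inl (Sum.inl.inj h)
          · exact Or.inr (Or.inl (Sum.inl.inj h))
          · exact Or.inr (Or.inr (Sum.inl.inj h))
      · constructor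
        · intro h
          exact h.elim
        · rintro (h | h | h) <;> cases h)
    (hM i (Sum.inl ⟨v, hv⟩))
  exact h

/-- The new edge of an expanded vertex given by two distinct edges at it. -/
def tE (u : Fin 60) (hu : u ∈ U) (a b : Fin 90) (hab : a ≠ b) (ha : inc a u) (hb : inc b u) :
    G60.ExpE U :=
  Sum.inr ⟨(u, s(a, b)), hu, fun h => hab (Sym2.mk_isDiag_iff.1 h), by
    intro e he
    rcases Sym2.mem_iff.1 he with rfl | rfl
    · exact ha
    · exact hb⟩

theorem tE_swap (u : Fin 60) (hu : u ∈ U) (a b : Fin 90) (hab : a ≠ b) (ha : inc a u)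
    (hb : inc b u) : tE U u hu a b hab ha hb = tE U u hu b a hab.symm hb ha := by
  unfold tE
  congr 1
  apply Subtype.ext
  change (u, s(a, b)) = (u, s(b, a))
  rw [Sym2.eq_swap]

theorem inc_new (u : Fin 60) (hu : u ∈ U) (a b c : Fin 90) (hab : a ≠ b) (hac : a ≠ c)
    (hinc : ∀ e, inc e u ↔ (e = a ∨ e = b ∨ e = c)) (ha : inc a u) (hb : inc b u)
    (hc : inc c u) (e : G60.ExpE U) :
    G60.ExpInc U e (Sum.inr ⟨(u, a), hu, ha⟩) ↔
      (e = Sum.inl a ∨ e = tE U u hu a b hab ha hb ∨ e = tE U u hu a c hac ha hc) := by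
  rcases e with e | ⟨⟨w, s⟩, hw, hs, hse⟩
  · change a = e ↔ _
    constructor
    · rintro rfl
      exact Or.inl rfl
    · rintro (h | h | h)
      · exact (Sum.inl.inj h).symm
      · cases h
      · cases h
  · change (w = u ∧ a ∈ s) ↔ _
    constructor
    · rintro ⟨rfl, has⟩
      obtain ⟨y, rfl⟩ := Sym2.mem_iff_exists.1 has
      have hay : a ≠ y := fun h => hs (Sym2.mk_isDiag_iff.2 h)
      have hy : inc y w := hse y (Sym2.mem_mk_right a y)
      rcases (hinc y).1 hy with h | h | h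
      · exact absurd h.symm hay
      · subst h
        exact Or.inr (Or.inl rfl)
      · subst h
        exact Or.inr (Or.inr rfl)
    · rintro (h | h | h)
      · cases h
      · unfold tE at h
        have h' := Sum.inr.inj h
        have h'' := congrArg Subtype.val h'
        have k1 : w = u := congrArg Prod.fst h''
        have k2 : s = s(a, b) := congrArg Prod.snd h''
        rw [k1, k2]
        exact ⟨rfl, Sym2.mem_mk_left a b⟩
      · unfold tE at h
        have h' := Sum.inr.inj h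
        have h'' := congrArg Subtype.val h'
        have k1 : w = u := congrArg Prod.fst h''
        have k2 : s = s(a, c) := congrArg Prod.snd h''
        rw [k1, k2]
        exact ⟨rfl, Sym2.mem_mk_left a c⟩

theorem tE_ne (u : Fin 60) (hu : u ∈ U) (a b c : Fin 90) (hab : a ≠ b) (hac : a ≠ c)
    (hbc : b ≠ c) (ha : inc a u) (hb : inc b u) (hc : inc c u) :
    tE U u hu a b hab ha hb ≠ tE U u hu a c hac ha hc := by
  intro h
  unfold tE at h
  have h' := congrArg Subtype.val (Sum.inr.inj h)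
  have k2 : s(a, b) = s(a, c) := congrArg Prod.snd h'
  have hb' : b ∈ s(a, c) := by rw [← k2]; exact Sym2.mem_mk_right a b
  rcases Sym2.mem_iff.1 hb' with h1 | h1
  · exact hab h1.symm
  · exact hbc h1

open Classical in
theorem at_in (v : Fin 60) (hv : v ∈ U)
    (hM : ∀ i, ∀ w : G60.ExpV U, ∃! e, e ∈ M i ∧ G60.ExpInc U e w)
    (hcov : ∀ e : G60.ExpE U, ∃ i, e ∈ M i) :
    ∃ X Y Z : Fin 4 → Bool, (∀ i, in3 (AA U M (tri v 0) i) (AA U M (tri v 1) i)
      (AA U M (tri v 2) i) (X i) (Y i) (Z i) = true) ∧ (∃ i, X i = true) ∧ (∃ i, Y i = true) ∧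
      (∃ i, Z i = true) := by
  obtain ⟨h01, h02, h12⟩ := tri_ne v
  generalize htri0 : tri v 0 = a at *
  generalize htri1 : tri v 1 = b at *
  generalize htri2 : tri v 2 = c at *
  have hinc : ∀ e, inc e v ↔ (e = a ∨ e = b ∨ e = c) := by
    intro e
    rw [inc_iff, htri0, htri1, htri2]
  have ha : inc a v := (hinc a).2 (Or.inl rfl)
  have hb : inc b v := (hinc b).2 (Or.inr (Or.inl rfl))
  have hc : inc c v := (hinc c).2 (Or.inr (Or.inr rfl))
  refine ⟨fun i => decide (tE U v hv a b h01 ha hb ∈ M i),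
    fun i => decide (tE U v hv a c h02 ha hc ∈ M i),
    fun i => decide (tE U v hv b c h12 hb hc ∈ M i), ?_, ?_, ?_, ?_⟩
  · intro i
    have e1 := one3_of (M i) (fun e => G60.ExpInc U e (Sum.inr ⟨(v, a), hv, ha⟩))
      (Sum.inl a) (tE U v hv a b h01 ha hb) (tE U v hv a c h02 ha hc)
      (by intro h; cases h) (by intro h; cases h) (tE_ne U v hv a b c h01 h02 h12 ha hb hc)
      (inc_new U v hv a b c h01 h02 hinc ha hb hc) (hM i _)
    have e2 := one3_of (M i) (fun e => G60.ExpInc U e (Sum.inr ⟨(v, b), hv, hb⟩))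
      (Sum.inl b) (tE U v hv b a h01.symm hb ha) (tE U v hv b c h12 hb hc)
      (by intro h; cases h) (by intro h; cases h) (tE_ne U v hv b a c h01.symm h12 h02 hb ha hc)
      (inc_new U v hv b a c h01.symm h12 (fun e => by rw [hinc]; tauto) hb ha hc) (hM i _)
    have e3 := one3_of (M i) (fun e => G60.ExpInc U e (Sum.inr ⟨(v, c), hv, hc⟩))
      (Sum.inl c) (tE U v hv c a h02.symm hc ha) (tE U v hv c b h12.symm hc hb)
      (by intro h; cases h) (by intro h; cases h)
      (tE_ne U v hv c a b h02.symm h12.symm h01 hc ha hb)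
      (inc_new U v hv c a b h02.symm h12.symm (fun e => by rw [hinc]; tauto) hc ha hb) (hM i _)
    rw [← tE_swap U v hv a b h01 ha hb] at e2
    rw [← tE_swap U v hv a c h02 ha hc, ← tE_swap U v hv b c h12 hb hc] at e3
    simp only [in3, Bool.and_eq_true]
    exact ⟨⟨e1, e2⟩, e3⟩
  · obtain ⟨i, hi⟩ := hcov (tE U v hv a b h01 ha hb)
    exact ⟨i, by simp [hi]⟩
  · obtain ⟨i, hi⟩ := hcov (tE U v hv a c h02 ha hc)
    exact ⟨i, by simp [hi]⟩
  · obtain ⟨i, hi⟩ := hcov (tE U v hv b c h12 hb hc)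
    exact ⟨i, by simp [hi]⟩

theorem or4 (X : Fin 4 → Bool) (h : ∃ i, X i = true) :
    (X 0 || X 1 || X 2 || X 3) = true := by
  obtain ⟨i, hi⟩ := h
  fin_cases i <;> simp_all

theorem G60_lower (hM : ∀ i, ∀ w : G60.ExpV U, ∃! e, e ∈ M i ∧ G60.ExpInc U e w)
    (hcov : ∀ e : G60.ExpE U, ∃ i, e ∈ M i) : 3 ≤ U.ncard := by
  classical
  have hout : ∀ v, v ∉ U →
      good (AA U M (tri v 0) 0) (AA U M (tri v 1) 0) (AA U M (tri v 2) 0)
        (AA U M (tri v 0) 1) (AA U M (tri v 1) 1) (AA U M (tri v 2) 1)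
        (AA U M (tri v 0) 2) (AA U M (tri v 1) 2) (AA U M (tri v 2) 2)
        (AA U M (tri v 0) 3) (AA U M (tri v 1) 3) (AA U M (tri v 2) 3) = true ∧
      dep (AA U M (tri v 0)) + dep (AA U M (tri v 1)) + dep (AA U M (tri v 2)) = 4 := by
    intro v hv
    have h := fin_out _ _ _ (at_out U M v hv hM 0) _ _ _ (at_out U M v hv hM 1)
      _ _ _ (at_out U M v hv hM 2) _ _ _ (at_out U M v hv hM 3)
      (AA_or U M hcov (tri v 0)) (AA_or U M hcov (tri v 1)) (AA_or U M hcov (tri v 2))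
    rw [dep_eq, dep_eq, dep_eq]
    exact h
  have hgood : ∀ v,
      good (AA U M (tri v 0) 0) (AA U M (tri v 1) 0) (AA U M (tri v 2) 0)
        (AA U M (tri v 0) 1) (AA U M (tri v 1) 1) (AA U M (tri v 2) 1)
        (AA U M (tri v 0) 2) (AA U M (tri v 1) 2) (AA U M (tri v 2) 2)
        (AA U M (tri v 0) 3) (AA U M (tri v 1) 3) (AA U M (tri v 2) 3) = true := by
    intro v
    by_cases hv : v ∈ U
    · obtain ⟨X, Y, Z, h3, hX, hY, hZ⟩ := at_in U M v hv hM hcov
      exact fin_in _ _ _ _ _ _ (h3 0) _ _ _ _ _ _ (h3 1) _ _ _ _ _ _ (h3 2)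
        _ _ _ _ _ _ (h3 3) (or4 X hX) (or4 Y hY) (or4 Z hZ)
    · exact (hout v hv).1
  have hc := fun v => good_concl _ _ _ (hgood v)
  have hdA : ∀ e, dep (AA U M e) = 1 ∨ dep (AA U M e) = 2 := by
    have hex : ∀ e : Fin 90, ∃ v : Fin 60, e = tri v 0 ∨ e = tri v 1 ∨ e = tri v 2 := by
      intro e
      exact ⟨⟨endA e.val, endA_lt e⟩, (inc_iff _ _).1 (Or.inl rfl)⟩
    intro e
    obtain ⟨v, h | h | h⟩ := hex e
    · rw [h]; exact (hc v).1
    · rw [h]; exact (hc v).2.1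
    · rw [h]; exact (hc v).2.2.1
  have hlow := lower (fun e => lab (AA U M e)) (fun v => (hc v).2.2.2)
    (fun e => by rw [dep_lab _ (hdA e)]; exact hdA e)
  have hle : ∑ v, bad (fun e => lab (AA U M e)) v ≤ U.ncard := by
    have h1 : ∀ v, bad (fun e => lab (AA U M e)) v ≤ if v ∈ U then 1 else 0 := by
      intro v
      by_cases hv : v ∈ U
      · simp only [hv, if_true, bad]
        split_ifs <;> simp
      · have h4 := (hout v hv).2
        simp only [hv, if_false, bad, ds, dep_lab _ (hdA _), h4]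
        simp
    refine (Finset.sum_le_sum fun v _ => h1 v).trans ?_
    rw [← Finset.card_filter, ← Set.ncard_coe_finset]
    apply Set.ncard_le_ncard _ (Set.toFinite U)
    intro v hv
    simpa using hv
  exact hlow.trans hle

end

end Pool.Agent.Scc961
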